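import Mathlib

/-! Affine bijections of seven-space preserving a form of signature (4,3): basic facts. -/

set_option autoImplicit false

namespace Pool.Agent.Cry7

open Matrix

abbrev V := Fin 7 → ℝ
abbrev AffE := (Fin 7 → ℝ) ≃ᵃ[ℝ] (Fin 7 → ℝ)
abbrev M7 := Matrix (Fin 7) (Fin 7) ℝ

/-- the Gram matrix of the form -/
def J : M7 := Matrix.diagonal (fun i : Fin 7 => if (i : ℕ) < 4 then (1 : ℝ) else -1)

/-- the matrix of the linear part -/
def lin (g : AffE) : M7 := LinearMap.toMatrix' g.linear.toLinearMap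

lemma lin_mulVec (g : AffE) (x : V) : lin g *ᵥ x = g.linear x := by
  unfold lin
  rw [LinearMap.toMatrix'_mulVec]
  rfl

lemma apply_eq (g : AffE) (x : V) : g x = lin g *ᵥ x + g 0 := by
  rw [lin_mulVec]
  have h := g.map_vadd (0 : V) x
  simp only [vadd_eq_add, add_zero] at h
  exact h

lemma lin_mul (g h : AffE) : lin (g * h) = lin g * lin h := by
  unfold lin
  rw [← LinearMap.toMatrix'_comp]
  rfl

lemma lin_one : lin 1 = 1 := by
  unfold lin
  exact LinearMap.toMatrix'_id

lemma lin_mul_inv (g : AffE) : lin g * lin g⁻¹ = 1 := by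
  rw [← lin_mul, mul_inv_cancel, lin_one]

lemma lin_inv_mul (g : AffE) : lin g⁻¹ * lin g = 1 := by
  rw [← lin_mul, inv_mul_cancel, lin_one]

lemma lin_pow (g : AffE) (n : ℕ) : lin (g ^ n) = lin g ^ n := by
  induction n with
  | zero => simp [lin_one]
  | succ n ih => rw [pow_succ, lin_mul, ih, pow_succ]

lemma lin_conj (g h : AffE) : lin (g * h * g⁻¹) = lin g * lin h * lin g⁻¹ := by
  rw [lin_mul, lin_mul]

/-- the special orthogonal group of the form -/
def SO (A : M7) : Prop := A.det = 1 ∧ Aᵀ * J * A = J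

lemma J_transpose : Jᵀ = J := by
  unfold J; exact Matrix.diagonal_transpose _

lemma J_mul_J : J * J = 1 := by
  unfold J
  rw [Matrix.diagonal_mul_diagonal]
  ext i j
  rw [Matrix.diagonal_apply, Matrix.one_apply]
  split_ifs <;> norm_num

/-- the inverse of an element of the orthogonal group -/
def adj (A : M7) : M7 := J * Aᵀ * J

lemma adj_mul {A : M7} (h : Aᵀ * J * A = J) : adj A * A = 1 := by
  unfold adj
  rw [Matrix.mul_assoc, Matrix.mul_assoc, ← Matrix.mul_assoc Aᵀ, h, J_mul_J]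

lemma mul_adj {A : M7} (h : Aᵀ * J * A = J) : A * adj A = 1 :=
  mul_eq_one_comm.mp (adj_mul h)

/-- uniform torsion: elements with a fixed point -/
lemma uniform_torsion (Γ : Subgroup AffE)
    (hp : ∀ K L : Set V, IsCompact K → IsCompact L →
        {g : AffE | g ∈ Γ ∧ ((⇑g) '' K ∩ L).Nonempty}.Finite)
    (hc : ∃ K : Set V, IsCompact K ∧ ∀ x : V, ∃ g ∈ Γ, x ∈ (⇑g) '' K) :
    ∃ M : ℕ, 0 < M ∧ ∀ g ∈ Γ, (∃ x : V, g x = x) → g ^ M = 1 := by
  obtain ⟨K, hK, hcov⟩ := hc
  have hfin := hp K K hK hK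
  set F := {g : AffE | g ∈ Γ ∧ ((⇑g) '' K ∩ K).Nonempty} with hF
  refine ⟨(hfin.toFinset.card).factorial, Nat.factorial_pos _, ?_⟩
  rintro g hg ⟨x, hx⟩
  obtain ⟨h, hh, k, hk, hkx⟩ := hcov x
  set d : AffE := h⁻¹ * g * h with hd
  have hdk : d k = k := by
    have h1 : d k = h⁻¹ (g (h k)) := rfl
    rw [h1, hkx, hx, ← hkx]
    exact h.symm_apply_apply k
  have hpow : ∀ n : ℕ, (d ^ n) k = k := by
    intro n
    induction n with
    | zero => rfl
    | succ n ih =>
      have h1 : (d ^ (n + 1)) k = (d ^ n) (d k) := by rw [pow_succ]; rfl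
      rw [h1, hdk, ih]
  have hmem : ∀ n : ℕ, d ^ n ∈ F := by
    intro n
    refine ⟨Γ.pow_mem (Γ.mul_mem (Γ.mul_mem (Γ.inv_mem hh) hg) hh) n, k, ⟨k, hk, hpow n⟩, hk⟩
  have hmaps : Set.MapsTo (fun n : ℕ => d ^ n) (Finset.range (hfin.toFinset.card + 1))
      hfin.toFinset := by
    intro n _
    simpa using hmem n
  obtain ⟨i, hi, j, hj, hij, he⟩ := Finset.exists_ne_map_eq_of_card_lt_of_maps_to
    (by simp) hmaps
  have key : ∀ i j : ℕ, i < j → j < hfin.toFinset.card + 1 → d ^ i = d ^ j →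
      d ^ (hfin.toFinset.card).factorial = 1 := by
    intro i j hij hj he
    have h1 : d ^ (j - i) = 1 := by
      have h2 : d ^ i * d ^ (j - i) = d ^ i := by
        rw [← pow_add, Nat.add_sub_cancel' hij.le, he]
      exact mul_left_cancel (a := d ^ i) (by rw [h2, mul_one])
    obtain ⟨c, hc⟩ := Nat.dvd_factorial (Nat.sub_pos_of_lt hij)
      (show j - i ≤ hfin.toFinset.card by omega)
    rw [hc, pow_mul, h1, one_pow]
  have hd1 : d ^ (hfin.toFinset.card).factorial = 1 := by
    simp only [Finset.mem_range] at hi hj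
    rcases lt_or_gt_of_ne hij with h | h
    · exact key i j h hj he
    · exact key j i h hi he.symm
  have hg' : g = h * d * h⁻¹ := by rw [hd]; group
  rw [hg', conj_pow, hd1, mul_one, mul_inv_cancel]

end Pool.Agent.Cry7
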