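import Pool.Agent.Cry7.Basic

/-! Polynomial functions of a matrix. -/

set_option autoImplicit false

namespace Pool.Agent.Cry7

open Matrix

/-- functions of a matrix given by a polynomial in the entries -/
def PolyFun (f : M7 → ℝ) : Prop :=
  ∃ p : MvPolynomial (Fin 7 × Fin 7) ℝ, ∀ A : M7,
    MvPolynomial.eval (fun ij : Fin 7 × Fin 7 => A ij.1 ij.2) p = f A

lemma PolyFun.const (c : ℝ) : PolyFun fun _ => c := ⟨MvPolynomial.C c, fun A => by simp⟩

lemma PolyFun.coord (i j : Fin 7) : PolyFun fun A => A i j :=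
  ⟨MvPolynomial.X (i, j), fun A => by simp⟩

lemma PolyFun.add {f g : M7 → ℝ} (hf : PolyFun f) (hg : PolyFun g) :
    PolyFun fun A => f A + g A := by
  obtain ⟨p, hp⟩ := hf
  obtain ⟨q, hq⟩ := hg
  exact ⟨p + q, fun A => by rw [map_add, hp, hq]⟩

lemma PolyFun.mul {f g : M7 → ℝ} (hf : PolyFun f) (hg : PolyFun g) :
    PolyFun fun A => f A * g A := by
  obtain ⟨p, hp⟩ := hf
  obtain ⟨q, hq⟩ := hg
  exact ⟨p * q, fun A => by rw [map_mul, hp, hq]⟩

lemma PolyFun.sub {f g : M7 → ℝ} (hf : PolyFun f) (hg : PolyFun g) :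
    PolyFun fun A => f A - g A := by
  obtain ⟨p, hp⟩ := hf
  obtain ⟨q, hq⟩ := hg
  exact ⟨p - q, fun A => by rw [map_sub, hp, hq]⟩

lemma PolyFun.sum {ι : Type} (s : Finset ι) (f : ι → M7 → ℝ) (h : ∀ i ∈ s, PolyFun (f i)) :
    PolyFun fun A => ∑ i ∈ s, f i A := by
  classical
  induction s using Finset.induction_on with
  | empty => simpa using PolyFun.const 0
  | insert a s ha ih =>
    have h1 := (h a (Finset.mem_insert_self a s)).add
      (ih fun i hi => h i (Finset.mem_insert_of_mem hi))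
    simpa [Finset.sum_insert ha] using h1

lemma PolyFun.prod {ι : Type} (s : Finset ι) (f : ι → M7 → ℝ) (h : ∀ i ∈ s, PolyFun (f i)) :
    PolyFun fun A => ∏ i ∈ s, f i A := by
  classical
  induction s using Finset.induction_on with
  | empty => simpa using PolyFun.const 1
  | insert a s ha ih =>
    have h1 := (h a (Finset.mem_insert_self a s)).mul
      (ih fun i hi => h i (Finset.mem_insert_of_mem hi))
    simpa [Finset.prod_insert ha] using h1

/-- matrix valued polynomial functions -/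
def PolyMat {m n : Type} (F : M7 → Matrix m n ℝ) : Prop := ∀ i j, PolyFun fun A => F A i j

lemma PolyMat.const {m n : Type} (B : Matrix m n ℝ) : PolyMat fun _ => B :=
  fun i j => PolyFun.const (B i j)

lemma PolyMat.id : PolyMat fun A : M7 => A := fun i j => PolyFun.coord i j

lemma PolyMat.transpose {m n : Type} {F : M7 → Matrix m n ℝ} (h : PolyMat F) :
    PolyMat fun A => (F A)ᵀ := fun i j => h j i

lemma PolyMat.mul {l m n : Type} [Fintype m] {F : M7 → Matrix l m ℝ} {G : M7 → Matrix m n ℝ}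
    (hF : PolyMat F) (hG : PolyMat G) : PolyMat fun A => F A * G A := by
  intro i j
  simp only [Matrix.mul_apply]
  exact PolyFun.sum _ _ fun k _ => (hF i k).mul (hG k j)

lemma PolyMat.sub {m n : Type} {F G : M7 → Matrix m n ℝ} (hF : PolyMat F) (hG : PolyMat G) :
    PolyMat fun A => F A - G A := fun i j => (hF i j).sub (hG i j)

lemma PolyMat.pow {F : M7 → M7} (hF : PolyMat F) (n : ℕ) : PolyMat fun A => F A ^ n := by
  induction n with
  | zero => simpa using PolyMat.const (1 : M7)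
  | succ n ih => simpa [pow_succ] using ih.mul hF

lemma PolyMat.fromCols {m n₁ n₂ : Type} {F : M7 → Matrix m n₁ ℝ} {G : M7 → Matrix m n₂ ℝ}
    (hF : PolyMat F) (hG : PolyMat G) : PolyMat fun A => Matrix.fromCols (F A) (G A) := by
  intro i j
  rcases j with j | j
  · exact hF i j
  · exact hG i j

lemma PolyFun.det {n : Type} [Fintype n] [DecidableEq n] {F : M7 → Matrix n n ℝ}
    (hF : PolyMat F) : PolyFun fun A => (F A).det := by
  simp only [Matrix.det_apply]
  refine PolyFun.sum _ _ fun s _ => ?_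
  have h1 : PolyFun fun A => ∏ i, F A (s i) i := PolyFun.prod _ _ fun i _ => hF (s i) i
  have h2 := (PolyFun.const (((Equiv.Perm.sign s : ℤˣ) : ℤ) : ℝ)).mul h1
  have h3 : (fun A => Equiv.Perm.sign s • ∏ i, F A (s i) i) =
      fun A => (((Equiv.Perm.sign s : ℤˣ) : ℤ) : ℝ) * ∏ i, F A (s i) i := by
    funext A
    rw [Units.smul_def, zsmul_eq_mul]
  rw [h3]
  exact h2

lemma PolyMat.adj : PolyMat fun A : M7 => adj A := by
  unfold Pool.Agent.Cry7.adj
  exact ((PolyMat.const J).mul PolyMat.id.transpose).mul (PolyMat.const J)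

/-- Zariski density, as a statement about polynomial functions -/
def Dense (S : Set M7) : Prop :=
  ∀ f : M7 → ℝ, PolyFun f → (∀ A ∈ S, f A = 0) → ∀ A : M7, SO A → f A = 0

lemma dense_of (Γ : Subgroup AffE)
    (hd : ∀ p : MvPolynomial (Fin 7 × Fin 7) ℝ,
        (∀ g ∈ Γ, MvPolynomial.eval
            (fun ij : Fin 7 × Fin 7 =>
              LinearMap.toMatrix' g.linear.toLinearMap ij.1 ij.2) p = 0) →
        ∀ A : Matrix (Fin 7) (Fin 7) ℝ, A.det = 1 →
          A.transpose *
              Matrix.diagonal (fun i : Fin 7 => if (i : ℕ) < 4 then (1 : ℝ) else -1) * A =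
            Matrix.diagonal (fun i : Fin 7 => if (i : ℕ) < 4 then (1 : ℝ) else -1) →
          MvPolynomial.eval (fun ij : Fin 7 × Fin 7 => A ij.1 ij.2) p = 0) :
    Dense {A : M7 | ∃ g ∈ Γ, lin g = A} := by
  rintro f ⟨p, hp⟩ hf A ⟨hA1, hA2⟩
  rw [← hp]
  refine hd p ?_ A hA1 hA2
  intro g hg
  have h1 := hf (lin g) ⟨g, hg, rfl⟩
  rw [← hp] at h1
  exact h1

end Pool.Agent.Cry7
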