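import Pool.Agent.Cry7.Repr
import Pool.Agent.Cry7.Poly

/-! Commuting points of two affine bijections with small displacement. -/

set_option autoImplicit false

namespace Pool.Agent.Cry7

open Matrix

lemma exists_point {n : Type} [Fintype n] [DecidableEq n] (X : Matrix (Fin 7) n ℝ)
    (hX : ∀ v : n → ℝ, X *ᵥ v = 0 → v = 0) (s : n → ℝ) :
    ∃ z : V, Xᵀ *ᵥ (J *ᵥ z) = s := by
  have hg : IsUnit (Xᵀ * X).det := isUnit_iff_ne_zero.mpr (gram_det X hX)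
  refine ⟨J *ᵥ (X *ᵥ ((Xᵀ * X)⁻¹ *ᵥ s)), ?_⟩
  rw [Matrix.mulVec_mulVec _ J J, J_mul_J, Matrix.one_mulVec, Matrix.mulVec_mulVec,
    Matrix.mulVec_mulVec, Matrix.mul_nonsing_inv _ hg, Matrix.one_mulVec]

lemma commute_point {r : ℕ} (g h : AffE) (C D : Matrix (Fin 7) (Fin r) ℝ)
    (T : Matrix (Fin r) (Fin r) ℝ) (hT : T.det ≠ 0)
    (hg : lin g = 1 + C * T * Cᵀ * J) (hh : lin h = 1 + D * T * Dᵀ * J)
    (hX : ∀ v : Fin r ⊕ Fin r → ℝ, Matrix.fromCols C D *ᵥ v = 0 → v = 0)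
    (hm : (Cᵀ * J * D).det ≠ 0) : ∃ z : V, g (h z) = h (g z) := by
  set m := Cᵀ * J * D with hmd
  have hTu : IsUnit T.det := isUnit_iff_ne_zero.mpr hT
  have hmu : IsUnit m.det := isUnit_iff_ne_zero.mpr hm
  have hmtu : IsUnit (mᵀ).det := by rw [Matrix.det_transpose]; exact hmu
  set a : V := g 0 with ha
  set b : V := h 0 with hb
  set s1 : Fin r → ℝ := -(T⁻¹ *ᵥ (m⁻¹ *ᵥ (Cᵀ *ᵥ (J *ᵥ b)))) with hs1
  set s2 : Fin r → ℝ := -(T⁻¹ *ᵥ ((mᵀ)⁻¹ *ᵥ (Dᵀ *ᵥ (J *ᵥ a)))) with hs2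
  obtain ⟨z, hz⟩ := exists_point (Matrix.fromCols C D) hX (Sum.elim s2 s1)
  rw [Matrix.transpose_fromCols, Matrix.fromRows_mulVec] at hz
  have hz2 : Cᵀ *ᵥ (J *ᵥ z) = s2 := by
    funext i; exact congrFun hz (Sum.inl i)
  have hz1 : Dᵀ *ᵥ (J *ᵥ z) = s1 := by
    funext i; exact congrFun hz (Sum.inr i)
  have hmt : Dᵀ * J * C = mᵀ := by
    rw [hmd, Matrix.transpose_mul, Matrix.transpose_mul, J_transpose, Matrix.transpose_transpose,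
      Matrix.mul_assoc]
  have hga : ∀ x : V, lin g *ᵥ x = x + C *ᵥ (T *ᵥ (Cᵀ *ᵥ (J *ᵥ x))) := by
    intro x
    rw [hg, Matrix.add_mulVec, Matrix.one_mulVec, Matrix.mulVec_mulVec, Matrix.mulVec_mulVec,
      Matrix.mulVec_mulVec]
  have hha : ∀ x : V, lin h *ᵥ x = x + D *ᵥ (T *ᵥ (Dᵀ *ᵥ (J *ᵥ x))) := by
    intro x
    rw [hh, Matrix.add_mulVec, Matrix.one_mulVec, Matrix.mulVec_mulVec, Matrix.mulVec_mulVec,
      Matrix.mulVec_mulVec]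
  have cD : ∀ u : Fin r → ℝ, Cᵀ *ᵥ (J *ᵥ (D *ᵥ u)) = m *ᵥ u := by
    intro u
    rw [Matrix.mulVec_mulVec, Matrix.mulVec_mulVec, hmd, Matrix.mul_assoc]
  have dC : ∀ u : Fin r → ℝ, Dᵀ *ᵥ (J *ᵥ (C *ᵥ u)) = mᵀ *ᵥ u := by
    intro u
    rw [Matrix.mulVec_mulVec, Matrix.mulVec_mulVec, ← hmt, Matrix.mul_assoc]
  have e1 : m *ᵥ (T *ᵥ s1) = -(Cᵀ *ᵥ (J *ᵥ b)) := by
    rw [hs1, Matrix.mulVec_neg, Matrix.mulVec_neg, Matrix.mulVec_mulVec _ T T⁻¹,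
      Matrix.mul_nonsing_inv _ hTu, Matrix.one_mulVec, Matrix.mulVec_mulVec _ m m⁻¹,
      Matrix.mul_nonsing_inv _ hmu, Matrix.one_mulVec]
  have e2 : mᵀ *ᵥ (T *ᵥ s2) = -(Dᵀ *ᵥ (J *ᵥ a)) := by
    rw [hs2, Matrix.mulVec_neg, Matrix.mulVec_neg, Matrix.mulVec_mulVec _ T T⁻¹,
      Matrix.mul_nonsing_inv _ hTu, Matrix.one_mulVec, Matrix.mulVec_mulVec _ mᵀ (mᵀ)⁻¹,
      Matrix.mul_nonsing_inv _ hmtu, Matrix.one_mulVec]
  refine ⟨z, ?_⟩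
  rw [apply_eq g (h z), apply_eq h z, apply_eq h (g z), apply_eq g z, ← ha, ← hb, hha z, hga z,
    hz1, hz2, hga, hha]
  simp only [Matrix.mulVec_add, hz1, hz2, cD, dC, e1, e2, Matrix.mulVec_neg]
  abel

lemma comm_contra {r : ℕ} (hr : 0 < r) (C D : Matrix (Fin 7) (Fin r) ℝ)
    (T : Matrix (Fin r) (Fin r) ℝ) (hT : T.det ≠ 0) (A B : M7)
    (hg : A = 1 + C * T * Cᵀ * J) (hh : B = 1 + D * T * Dᵀ * J)
    (hX : ∀ v : Fin r ⊕ Fin r → ℝ, Matrix.fromCols C D *ᵥ v = 0 → v = 0)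
    (hm : (Cᵀ * J * D).det ≠ 0) (hc : A * B = B * A) : False := by
  set m := Cᵀ * J * D with hmd
  have hTu : IsUnit T.det := isUnit_iff_ne_zero.mpr hT
  have hmu : IsUnit m.det := isUnit_iff_ne_zero.mpr hm
  have hmt : Dᵀ * J * C = mᵀ := by
    rw [hmd, Matrix.transpose_mul, Matrix.transpose_mul, J_transpose, Matrix.transpose_transpose,
      Matrix.mul_assoc]
  have hga : ∀ x : V, A *ᵥ x = x + C *ᵥ (T *ᵥ (Cᵀ *ᵥ (J *ᵥ x))) := by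
    intro x
    rw [hg, Matrix.add_mulVec, Matrix.one_mulVec, Matrix.mulVec_mulVec, Matrix.mulVec_mulVec,
      Matrix.mulVec_mulVec]
  have hha : ∀ x : V, B *ᵥ x = x + D *ᵥ (T *ᵥ (Dᵀ *ᵥ (J *ᵥ x))) := by
    intro x
    rw [hh, Matrix.add_mulVec, Matrix.one_mulVec, Matrix.mulVec_mulVec, Matrix.mulVec_mulVec,
      Matrix.mulVec_mulVec]
  have cD : ∀ u : Fin r → ℝ, Cᵀ *ᵥ (J *ᵥ (D *ᵥ u)) = m *ᵥ u := by
    intro u
    rw [Matrix.mulVec_mulVec, Matrix.mulVec_mulVec, hmd, Matrix.mul_assoc]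
  have dC : ∀ u : Fin r → ℝ, Dᵀ *ᵥ (J *ᵥ (C *ᵥ u)) = mᵀ *ᵥ u := by
    intro u
    rw [Matrix.mulVec_mulVec, Matrix.mulVec_mulVec, ← hmt, Matrix.mul_assoc]
  have hz : ∀ x : V, Dᵀ *ᵥ (J *ᵥ x) = 0 := by
    intro x
    have h1 : A *ᵥ (B *ᵥ x) = B *ᵥ (A *ᵥ x) := by
      rw [Matrix.mulVec_mulVec, Matrix.mulVec_mulVec, hc]
    rw [hha x, hga x, hga, hha] at h1
    simp only [Matrix.mulVec_add, cD, dC] at h1
    have h2 : Matrix.fromCols C D *ᵥ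
        (Sum.elim (T *ᵥ (m *ᵥ (T *ᵥ (Dᵀ *ᵥ (J *ᵥ x)))))
          (-(T *ᵥ (mᵀ *ᵥ (T *ᵥ (Cᵀ *ᵥ (J *ᵥ x))))))) = 0 := by
      rw [Matrix.fromCols_mulVec]
      simp only [Sum.elim_comp_inl, Sum.elim_comp_inr, Matrix.mulVec_neg]
      have h3 := sub_eq_zero.mpr h1
      rw [← h3]
      abel
    have h3 := hX _ h2
    have h4 : T *ᵥ (m *ᵥ (T *ᵥ (Dᵀ *ᵥ (J *ᵥ x)))) = 0 := by
      funext i
      exact congrFun h3 (Sum.inl i)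
    have h5 : ∀ (Y : Matrix (Fin r) (Fin r) ℝ), IsUnit Y.det → ∀ v : Fin r → ℝ, Y *ᵥ v = 0 → v = 0 := by
      intro Y hY v hv
      have h6 := congrArg (fun u => Y⁻¹ *ᵥ u) hv
      simp only [Matrix.mulVec_mulVec, Matrix.nonsing_inv_mul _ hY, Matrix.one_mulVec,
        Matrix.mulVec_zero] at h6
      exact h6
    exact h5 T hTu _ (h5 m hmu _ (h5 T hTu _ h4))
  have h1 : mᵀ = 0 := by
    apply Matrix.ext_of_mulVec_single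
    intro i
    rw [← dC, hz, Matrix.zero_mulVec]
  have h2 : m = 0 := by rw [← Matrix.transpose_transpose m, h1, Matrix.transpose_zero]
  apply hm
  rw [h2]
  have : Nonempty (Fin r) := ⟨⟨0, hr⟩⟩
  exact Matrix.det_zero

end Pool.Agent.Cry7
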