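import Pool.Agent.Cry7.Trans

/-! A nontrivial translation would make the group of linear parts finite. -/

set_option autoImplicit false

namespace Pool.Agent.Cry7

open Matrix

/-- the additive group of translation vectors -/
def transl (Γ : Subgroup AffE) : AddSubgroup V where
  carrier := {v | ∃ g ∈ Γ, ∀ x : V, g x = x + v}
  zero_mem' := ⟨1, Γ.one_mem, fun x => by simp⟩
  add_mem' := by
    rintro a b ⟨g, hg, h1⟩ ⟨k, hk, h2⟩
    refine ⟨g * k, Γ.mul_mem hg hk, fun x => ?_⟩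
    have h3 : (g * k) x = g (k x) := rfl
    rw [h3, h1, h2, add_assoc, add_comm b a]
  neg_mem' := by
    rintro a ⟨g, hg, h1⟩
    refine ⟨g⁻¹, Γ.inv_mem hg, fun x => ?_⟩
    have h2 : g (x + -a) = x := by rw [h1]; abel
    calc g⁻¹ x = g⁻¹ (g (x + -a)) := by rw [h2]
      _ = x + -a := g.symm_apply_apply _

lemma span_transl (Γ : Subgroup AffE) (hd : Dense {A : M7 | ∃ g ∈ Γ, lin g = A})
    (a : V) (ha : a ≠ 0) (hm : a ∈ transl Γ) :
    Submodule.span ℝ (transl Γ : Set V) = ⊤ := by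
  by_contra hne
  obtain ⟨f, hf0, hf⟩ := Submodule.exists_le_ker_of_lt_top _ (lt_top_iff_ne_top.mpr hne)
  set c : V := fun i => f (Pi.single i 1) with hc
  have hfc : ∀ x : V, f x = c ⬝ᵥ x := by
    intro x
    conv_lhs => rw [pi_eq_sum_univ x (R := ℝ)]
    rw [map_sum]
    unfold dotProduct
    refine Finset.sum_congr rfl fun i _ => ?_
    rw [map_smul, smul_eq_mul, mul_comm]
    congr 2
    ext j
    simp [Pi.single_apply, eq_comm]
  have hc0 : J *ᵥ c ≠ 0 := by
    intro h0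
    apply hf0
    have h1 : c = 0 := by
      have h2 : J *ᵥ (J *ᵥ c) = c := by rw [Matrix.mulVec_mulVec, J_mul_J, Matrix.one_mulVec]
      rw [← h2, h0, Matrix.mulVec_zero]
    ext x
    simp only [LinearMap.zero_comp, LinearMap.zero_apply]
    rw [LinearMap.comp_apply, hfc, h1, zero_dotProduct]
  obtain ⟨G, hG, hne2⟩ := orbit_ne a (J *ᵥ c) ha hc0
  apply hne2
  have hb : ∀ x : V, bil (J *ᵥ c) x = c ⬝ᵥ x := by
    intro x
    unfold bil
    rw [Matrix.dotProduct_mulVec, ← Matrix.mulVec_transpose, J_transpose, Matrix.mulVec_mulVec,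
      J_mul_J, Matrix.one_mulVec]
  rw [hb]
  refine hd (fun A => c ⬝ᵥ (A *ᵥ a)) ?_ ?_ G hG
  · unfold dotProduct Matrix.mulVec dotProduct
    exact PolyFun.sum _ _ fun i _ => (PolyFun.const _).mul
      (PolyFun.sum _ _ fun j _ => (PolyFun.coord i j).mul (PolyFun.const _))
  · rintro _ ⟨g, hg, rfl⟩
    have h1 : lin g *ᵥ a ∈ transl Γ := by
      obtain ⟨k, hk, h2⟩ := hm
      refine ⟨g * k * g⁻¹, Γ.mul_mem (Γ.mul_mem hg hk) (Γ.inv_mem hg), fun x => ?_⟩
      have h3 : (g * k * g⁻¹) x = g (k (g⁻¹ x)) := rfl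
      have h4 : g (g⁻¹ x) = x := g.apply_symm_apply x
      rw [h3, h2, apply_eq g, Matrix.mulVec_add, add_right_comm, ← apply_eq g, h4]
    have h2 := hf (Submodule.subset_span h1)
    rw [LinearMap.mem_ker, hfc] at h2
    exact h2

lemma finite_lin (Γ : Subgroup AffE)
    (hp : ∀ K L : Set V, IsCompact K → IsCompact L →
        {g : AffE | g ∈ Γ ∧ ((⇑g) '' K ∩ L).Nonempty}.Finite)
    (hs : Submodule.span ℝ (transl Γ : Set V) = ⊤) :
    {A : M7 | ∃ g ∈ Γ, lin g = A}.Finite := by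
  classical
  let b := Module.Basis.ofSpan hs.ge
  have := FiniteDimensional.fintypeBasisIndex b
  have hb : ∀ i, b i ∈ transl Γ := by
    intro i
    have h1 := Module.Basis.ofSpan_subset hs.ge (Set.mem_range_self i)
    exact h1
  set P : Set V := (fun s : _ → ℝ => ∑ i, s i • b i) '' (Set.Icc 0 1) with hP
  have hPc : IsCompact P := by
    refine isCompact_Icc.image ?_
    exact continuous_finsetSum _ fun i _ => (continuous_apply i).smul continuous_const
  have hF := hp {0} P isCompact_singleton hPc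
  refine (hF.image lin).subset ?_
  rintro _ ⟨g, hg, rfl⟩
  set v : V := ∑ i, ⌊b.repr (g 0) i⌋ • b i with hv
  have hvm : -v ∈ transl Γ :=
    neg_mem (sum_mem fun i _ => zsmul_mem (hb i) _)
  obtain ⟨k, hk, hkx⟩ := hvm
  have hkg : ∀ x : V, (k * g) x = g x + -v := fun x => hkx (g x)
  refine ⟨k * g, ⟨Γ.mul_mem hk hg, (k * g) 0, ⟨0, rfl, rfl⟩, ?_⟩, ?_⟩
  · rw [hkg, hP]
    refine ⟨fun i => Int.fract (b.repr (g 0) i), ⟨fun i => Int.fract_nonneg _,
      fun i => (Int.fract_lt_one _).le⟩, ?_⟩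
    have h1 := b.sum_repr (g 0)
    have h2 : g 0 + -v = ∑ i, (b.repr (g 0) i) • b i - v := by rw [h1, sub_eq_add_neg]
    rw [h2, hv, ← Finset.sum_sub_distrib]
    refine Finset.sum_congr rfl fun i _ => ?_
    rw [← Int.cast_smul_eq_zsmul ℝ, ← sub_smul]
    rfl
  · rw [lin_mul]
    have h1 : lin k = 1 := by
      apply Matrix.ext_of_mulVec_single
      intro j
      have h2 := apply_eq k (Pi.single j 1)
      rw [hkx, hkx, zero_add] at h2
      rw [Matrix.one_mulVec]
      exact (add_right_cancel h2).symm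
    rw [h1, Matrix.one_mul]

lemma not_finite_lin (Γ : Subgroup AffE) (hd : Dense {A : M7 | ∃ g ∈ Γ, lin g = A}) :
    ¬ {A : M7 | ∃ g ∈ Γ, lin g = A}.Finite := by
  intro hfin
  classical
  have ha : (Pi.single 0 1 : V) ≠ 0 := by
    intro h
    have h1 := congrFun h 0
    simp at h1
  obtain ⟨e, w, hi, hout⟩ := exists_out (Pi.single 0 1) ha
  have hN : nil e w ≠ 0 := by
    intro h
    apply hout 0
    rw [h, Matrix.zero_mulVec, zero_smul]
  have hij : ∃ i j, nil e w i j ≠ 0 := by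
    by_contra h
    push Not at h
    exact hN (Matrix.ext h)
  obtain ⟨i, j, hij⟩ := hij
  have h1 : ∀ t : ℝ, ∏ B ∈ hfin.toFinset, (path e w t i j - B i j) = 0 := by
    intro t
    refine hd (fun A => ∏ B ∈ hfin.toFinset, (A i j - B i j)) ?_ ?_ _ (path_SO hi t)
    · exact PolyFun.prod _ _ fun B _ => (PolyFun.coord i j).sub (PolyFun.const _)
    · intro A hA
      exact Finset.prod_eq_zero (hfin.mem_toFinset.mpr hA) (sub_self _)
  have h2 : ∀ t : ℝ, ∃ B ∈ hfin.toFinset, path e w t i j = B i j := by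
    intro t
    obtain ⟨B, hB, h3⟩ := Finset.prod_eq_zero_iff.mp (h1 t)
    exact ⟨B, hB, sub_eq_zero.mp h3⟩
  have h3 : Set.range (fun t : ℝ => path e w t i j) ⊆ (fun B : M7 => B i j) '' hfin.toFinset := by
    rintro _ ⟨t, rfl⟩
    obtain ⟨B, hB, h4⟩ := h2 t
    exact ⟨B, hB, h4.symm⟩
  have h4 : (Set.range (fun t : ℝ => path e w t i j)).Finite :=
    (hfin.toFinset.finite_toSet.image _).subset h3
  refine Set.infinite_range_of_injective ?_ h4
  intro s t hst
  simp only [path, Matrix.add_apply, Matrix.smul_apply, smul_eq_mul] at hst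
  have h5 : s * nil e w i j = t * nil e w i j := by linarith
  exact mul_right_cancel₀ hij h5

theorem no_translation (Γ : Subgroup AffE)
    (hp : ∀ K L : Set V, IsCompact K → IsCompact L →
        {g : AffE | g ∈ Γ ∧ ((⇑g) '' K ∩ L).Nonempty}.Finite)
    (hd : Dense {A : M7 | ∃ g ∈ Γ, lin g = A}) (γ : AffE) (hγ : γ ∈ Γ) (h : lin γ = 1) :
    γ = 1 := by
  have h1 : ∀ x : V, γ x = x + γ 0 := by
    intro x
    rw [apply_eq, h, Matrix.one_mulVec]
  by_cases h0 : γ 0 = 0
  · ext x : 1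
    rw [h1, h0, add_zero]
    rfl
  · exact absurd (finite_lin Γ hp (span_transl Γ hd (γ 0) h0 ⟨γ, hγ, h1⟩)) (not_finite_lin Γ hd)

end Pool.Agent.Cry7
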