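import Pool.Agent.Cry7.RankTwo
import Pool.Agent.Cry7.Lattice

/-! Displacement bounds. -/

set_option autoImplicit false

namespace Pool.Agent.Cry7

open Matrix

lemma parity {r : ℕ} (h : (-1 : ℝ) ^ r = 1) : Even r := by
  by_contra hr
  rw [Nat.not_even_iff_odd] at hr
  rw [hr.neg_one_pow] at h
  norm_num at h

lemma parity' {r : ℕ} (h : (-1 : ℝ) ^ r = -1) : Odd r := by
  by_contra hr
  rw [Nat.not_odd_iff_even] at hr
  rw [hr.neg_one_pow] at h
  norm_num at h

/-- elements of small displacement are trivial -/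
lemma small_trivial (Γ : Subgroup AffE)
    (hp : ∀ K L : Set V, IsCompact K → IsCompact L →
        {g : AffE | g ∈ Γ ∧ ((⇑g) '' K ∩ L).Nonempty}.Finite)
    (hc : ∃ K : Set V, IsCompact K ∧ ∀ x : V, ∃ g ∈ Γ, x ∈ (⇑g) '' K)
    (hl : ∀ g ∈ Γ, SO (lin g)) (hd : Dense {A : M7 | ∃ g ∈ Γ, lin g = A})
    (γ : AffE) (hγ : γ ∈ Γ) (h : (lin γ - 1).rank < 4) : γ = 1 := by
  obtain ⟨-, -, -, -, -, hdet⟩ := orth_repr (lin γ) (hl γ hγ).2 _ rfl
  rw [(hl γ hγ).1] at hdet
  obtain ⟨k, hk⟩ := parity hdet.symm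
  have h2 := no_rank_two Γ hp hc hl hd γ hγ
  have h0 : (lin γ - 1).rank = 0 := by omega
  have h1 : lin γ - 1 = 0 := by
    obtain ⟨C, R, Q, h3, -, -⟩ := factor (lin γ - 1) 0 h0
    rw [h3]
    ext i j
    rw [Matrix.mul_apply]
    simp
  exact no_translation Γ hp hd γ hγ (sub_eq_zero.mp h1)

lemma neg_orth {A : M7} (h : Aᵀ * J * A = J) : (-A)ᵀ * J * (-A) = J := by
  rw [Matrix.transpose_neg, Matrix.neg_mul, Matrix.neg_mul, Matrix.mul_neg, neg_neg, h]

lemma rank_add_neg (A : M7) : (-A - 1).rank = (A + 1).rank := by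
  have h : -A - 1 = -(A + 1) := by abel
  rw [h]
  have h2 : -(A + 1) = (-1 : M7) * (A + 1) := by rw [Matrix.neg_mul, Matrix.one_mul]
  rw [h2]
  refine Matrix.rank_mul_eq_right_of_isUnit_det _ _ ?_
  rw [Matrix.det_neg, Matrix.det_one, mul_one]
  exact (isUnit_one.neg).pow _

lemma rank_add_le' (A B : M7) : (A + B).rank ≤ A.rank + B.rank := by
  unfold Matrix.rank
  have h1 : LinearMap.range (A + B).mulVecLin ≤
      LinearMap.range A.mulVecLin ⊔ LinearMap.range B.mulVecLin := by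
    rintro _ ⟨x, rfl⟩
    rw [Matrix.mulVecLin_add, LinearMap.add_apply]
    exact Submodule.add_mem_sup (LinearMap.mem_range_self _ x) (LinearMap.mem_range_self _ x)
  exact (Submodule.finrank_mono h1).trans
    (Submodule.finrank_add_le_finrank_add_finrank _ _)

lemma no_plus_one (Γ : Subgroup AffE)
    (hp : ∀ K L : Set V, IsCompact K → IsCompact L →
        {g : AffE | g ∈ Γ ∧ ((⇑g) '' K ∩ L).Nonempty}.Finite)
    (hc : ∃ K : Set V, IsCompact K ∧ ∀ x : V, ∃ g ∈ Γ, x ∈ (⇑g) '' K)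
    (hl : ∀ g ∈ Γ, SO (lin g)) (hd : Dense {A : M7 | ∃ g ∈ Γ, lin g = A})
    (γ : AffE) (hγ : γ ∈ Γ) : (lin γ + 1).rank ≠ 1 := by
  intro h1
  set A := lin γ with hA
  have hAo : Aᵀ * J * A = J := (hl γ hγ).2
  have hinv : ∀ g ∈ Γ, lin g⁻¹ = adj (lin g) := fun g hg =>
    adj_unique (hl g hg).2 (lin_inv_mul g)
  have hone : ∀ g ∈ Γ, A * (lin g * A * adj (lin g)) = 1 := by
    intro g hg
    have hδ : g * γ * g⁻¹ ∈ Γ := Γ.mul_mem (Γ.mul_mem hg hγ) (Γ.inv_mem hg)
    have hB : lin (g * γ * g⁻¹) = lin g * A * adj (lin g) := by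
      rw [lin_conj, hinv g hg]
    set B := lin g * A * adj (lin g) with hBd
    have hr : (A * B - 1).rank < 4 := by
      have h2 : A * B - 1 = (A + 1) * B + (-(lin g * ((A + 1) * adj (lin g)))) := by
        have h3 : lin g * ((A + 1) * adj (lin g)) = B + 1 := by
          rw [Matrix.add_mul, Matrix.mul_add, Matrix.one_mul, mul_adj (hl g hg).2, hBd,
            Matrix.mul_assoc]
        rw [h3, Matrix.add_mul, Matrix.one_mul]
        abel
      rw [h2]
      have h4 : ((A + 1) * B).rank ≤ 1 := (Matrix.rank_mul_le_left _ _).trans h1.le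
      have h5 : (-(lin g * ((A + 1) * adj (lin g)))).rank ≤ 1 := by
        rw [← Matrix.neg_mul]
        exact (Matrix.rank_mul_le_right _ _).trans ((Matrix.rank_mul_le_left _ _).trans h1.le)
      have h6 := rank_add_le' ((A + 1) * B) (-(lin g * ((A + 1) * adj (lin g))))
      omega
    have h2 : lin (γ * (g * γ * g⁻¹)) = A * B := by rw [lin_mul, hB]
    have h3 := small_trivial Γ hp hc hl hd (γ * (g * γ * g⁻¹)) (Γ.mul_mem hγ hδ) (by rw [h2]; exact hr)
    rw [← h2, h3, lin_one]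
  have hcomm : ∀ g ∈ Γ, lin g * A = A * lin g := by
    intro g hg
    have h2 := hone 1 Γ.one_mem
    have h3 : adj (1 : M7) = 1 := by
      unfold adj
      rw [Matrix.transpose_one, Matrix.mul_one, J_mul_J]
    rw [lin_one, h3, Matrix.one_mul, Matrix.mul_one] at h2
    have h4 := hone g hg
    have h5 : lin g * A * adj (lin g) = A := by
      calc lin g * A * adj (lin g) = (A * A) * (lin g * A * adj (lin g)) := by
            rw [h2, Matrix.one_mul]
        _ = A * (A * (lin g * A * adj (lin g))) := by rw [Matrix.mul_assoc A A]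
        _ = A := by rw [h4, Matrix.mul_one]
    calc lin g * A = lin g * A * (adj (lin g) * lin g) := by
          rw [adj_mul (hl g hg).2, Matrix.mul_one]
      _ = lin g * A * adj (lin g) * lin g := by rw [Matrix.mul_assoc (lin g * A)]
      _ = A * lin g := by rw [h5]
  have hall : ∀ G : M7, SO G → G * A = A * G := by
    intro G hG
    ext i j
    have h2 := hd (fun G => (G * A - A * G) i j)
      (((PolyMat.id.mul (PolyMat.const A)).sub ((PolyMat.const A).mul PolyMat.id)) i j) ?_ G hG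
    · exact sub_eq_zero.mp h2
    · rintro _ ⟨g, hg, rfl⟩
      simp only [hcomm g hg, sub_self, Matrix.zero_apply]
  obtain ⟨C, R, Q, hP, hRQ, hC⟩ := factor (A + 1) 1 h1
  set s : V := C *ᵥ (fun _ => 1) with hs
  have hCv : ∀ v : Fin 1 → ℝ, C *ᵥ v = v 0 • s := by
    intro v
    rw [hs, ← Matrix.mulVec_smul]
    congr 1
    funext i
    rw [Pi.smul_apply, smul_eq_mul, mul_one, Subsingleton.elim i 0]
  have hs0 : s ≠ 0 := by
    intro h
    have h2 := congrFun (hC _ h) 0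
    simp at h2
  obtain ⟨e, w, hi, hout⟩ := exists_out s hs0
  have hsr : (A + 1) *ᵥ (Q *ᵥ (fun _ => 1)) = s := by
    rw [hP, Matrix.mulVec_mulVec, Matrix.mul_assoc, hRQ, Matrix.mul_one, hs]
  have hN : nil e w * (A + 1) = (A + 1) * nil e w := by
    have h2 := hall _ (path_SO hi 1)
    unfold path at h2
    rw [one_smul, Matrix.add_mul, Matrix.mul_add, Matrix.one_mul, Matrix.mul_one] at h2
    have h3 := add_left_cancel h2
    rw [Matrix.mul_add, Matrix.add_mul, h3, Matrix.mul_one, Matrix.one_mul]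
  have h2 : nil e w *ᵥ s = (R *ᵥ (nil e w *ᵥ (Q *ᵥ (fun _ => 1)))) 0 • s := by
    rw [← hCv]
    conv_lhs => rw [← hsr]
    rw [Matrix.mulVec_mulVec, hN, ← Matrix.mulVec_mulVec]
    rw [hP, ← Matrix.mulVec_mulVec]
  exact hout _ h2

/-- the two displacement bounds -/
theorem bounds (Γ : Subgroup AffE)
    (hp : ∀ K L : Set V, IsCompact K → IsCompact L →
        {g : AffE | g ∈ Γ ∧ ((⇑g) '' K ∩ L).Nonempty}.Finite)
    (hc : ∃ K : Set V, IsCompact K ∧ ∀ x : V, ∃ g ∈ Γ, x ∈ (⇑g) '' K)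
    (hl : ∀ g ∈ Γ, SO (lin g)) (hd : Dense {A : M7 | ∃ g ∈ Γ, lin g = A})
    (γ : AffE) (hγ : γ ∈ Γ) (hne : γ ≠ 1) : 4 ≤ (lin γ - 1).rank ∧ 3 ≤ (lin γ + 1).rank := by
  refine ⟨?_, ?_⟩
  · by_contra h
    exact hne (small_trivial Γ hp hc hl hd γ hγ (by omega))
  · have h1 := no_plus_one Γ hp hc hl hd γ hγ
    obtain ⟨-, -, -, -, -, hdet⟩ := orth_repr (-(lin γ)) (neg_orth (hl γ hγ).2) _ rfl
    rw [Matrix.det_neg, (hl γ hγ).1, mul_one, rank_add_neg, Fintype.card_fin] at hdet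
    have h7 : (-1 : ℝ) ^ 7 = -1 := by norm_num
    rw [h7] at hdet
    obtain ⟨k, hk⟩ := parity' hdet.symm
    omega

end Pool.Agent.Cry7
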