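import Pool.Agent.Cry7.Repr
import Pool.Agent.Cry7.Poly

/-! Root subgroups and their effect on a plane. -/

set_option autoImplicit false

namespace Pool.Agent.Cry7

open Matrix

/-- the bilinear form -/
def bil (x y : V) : ℝ := x ⬝ᵥ (J *ᵥ y)

lemma bil_comm (x y : V) : bil x y = bil y x := by
  unfold bil
  rw [Matrix.dotProduct_mulVec, ← Matrix.mulVec_transpose, J_transpose, dotProduct_comm]

lemma bil_add (x y z : V) : bil x (y + z) = bil x y + bil x z := by
  unfold bil
  rw [Matrix.mulVec_add, dotProduct_add]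

lemma bil_smul (c : ℝ) (x y : V) : bil x (c • y) = c * bil x y := by
  unfold bil
  rw [Matrix.mulVec_smul, dotProduct_smul, smul_eq_mul]

lemma bil_sub (x y z : V) : bil x (y - z) = bil x y - bil x z := by
  unfold bil
  rw [Matrix.mulVec_sub, dotProduct_sub]

/-- the nilpotent of an isotropic plane -/
def nil (e w : V) : M7 := vecMulVec w (J *ᵥ e) - vecMulVec e (J *ᵥ w)

lemma nil_mulVec (e w x : V) : nil e w *ᵥ x = bil e x • w - bil w x • e := by
  unfold nil
  rw [Matrix.sub_mulVec, Matrix.vecMulVec_mulVec, Matrix.vecMulVec_mulVec]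
  have h : ∀ y : V, (J *ᵥ y) ⬝ᵥ x = bil y x := by
    intro y
    rw [bil_comm]
    unfold bil
    rw [dotProduct_comm]
  rw [h, h]
  simp

structure Iso (e w : V) : Prop where
  ee : bil e e = 0
  ww : bil w w = 0
  ew : bil e w = 0

lemma nil_nil {e w : V} (h : Iso e w) : nil e w * nil e w = 0 := by
  apply Matrix.ext_of_mulVec_single
  intro j
  rw [Matrix.zero_mulVec, ← Matrix.mulVec_mulVec, nil_mulVec e w (Pi.single j 1), nil_mulVec, bil_sub, bil_sub,
    bil_smul, bil_smul, bil_smul, bil_smul, h.ew, h.ee, h.ww, bil_comm w e, h.ew]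
  simp

lemma nil_skew (e w : V) : (nil e w)ᵀ * J = -(J * nil e w) := by
  unfold nil
  rw [Matrix.transpose_sub, Matrix.transpose_vecMulVec, Matrix.transpose_vecMulVec,
    Matrix.sub_mul, Matrix.mul_sub, Matrix.vecMulVec_mul, Matrix.vecMulVec_mul,
    Matrix.mul_vecMulVec, Matrix.mul_vecMulVec]
  have h : ∀ y : V, y ᵥ* J = J *ᵥ y := by
    intro y
    rw [← Matrix.mulVec_transpose, J_transpose]
  rw [h, h]
  abel

/-- the one parameter group -/
def path (e w : V) (t : ℝ) : M7 := 1 + t • nil e w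

lemma path_orth {e w : V} (h : Iso e w) (t : ℝ) : (path e w t)ᵀ * J * path e w t = J := by
  unfold path
  rw [Matrix.transpose_add, Matrix.transpose_one, Matrix.transpose_smul, Matrix.add_mul,
    Matrix.one_mul, Matrix.smul_mul, nil_skew, Matrix.mul_add, Matrix.mul_one, Matrix.add_mul,
    Matrix.mul_smul, Matrix.smul_mul, Matrix.mul_smul, Matrix.neg_mul, Matrix.mul_assoc,
    nil_nil h]
  simp

lemma J_det_ne : J.det ≠ 0 := by
  intro h
  have h1 := congrArg Matrix.det J_mul_J
  rw [Matrix.det_mul, h, mul_zero, Matrix.det_one] at h1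
  exact zero_ne_one h1

lemma orth_det_sq {A : M7} (h : Aᵀ * J * A = J) : A.det * A.det = 1 := by
  have h1 := congrArg Matrix.det h
  rw [Matrix.det_mul, Matrix.det_mul, Matrix.det_transpose] at h1
  have h2 : J.det * (A.det * A.det) = J.det * 1 := by rw [mul_one]; linear_combination h1
  exact mul_left_cancel₀ J_det_ne h2

lemma path_add {e w : V} (h : Iso e w) (s t : ℝ) :
    path e w s * path e w t = path e w (s + t) := by
  unfold path
  rw [Matrix.add_mul, Matrix.one_mul, Matrix.mul_add, Matrix.mul_one, Matrix.smul_mul,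
    Matrix.mul_smul, nil_nil h, smul_zero, smul_zero, add_zero, add_smul]
  abel

lemma path_SO {e w : V} (h : Iso e w) (t : ℝ) : SO (path e w t) := by
  refine ⟨?_, path_orth h t⟩
  have h1 : path e w t = path e w (t / 2) * path e w (t / 2) := by
    rw [path_add h]; congr 1; ring
  rw [h1, Matrix.det_mul]
  exact orth_det_sq (path_orth h _)

/-- the columns of a matrix -/
def colv (C : Matrix (Fin 7) (Fin 2) ℝ) (i : Fin 2) : V := fun x => C x i

lemma mulVec_two (C : Matrix (Fin 7) (Fin 2) ℝ) (v : Fin 2 → ℝ) :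
    C *ᵥ v = v 0 • colv C 0 + v 1 • colv C 1 := by
  ext x
  simp [Matrix.mulVec, dotProduct, Fin.sum_univ_two, colv, mul_comm]

lemma mul_col (C : Matrix (Fin 7) (Fin 2) ℝ) (B : M7) (j : Fin 2) :
    (fun x => (B * C) x j) = B *ᵥ colv C j := by
  ext x
  simp [Matrix.mul_apply, Matrix.mulVec, dotProduct, colv]

lemma entry (C : Matrix (Fin 7) (Fin 2) ℝ) (B : M7) (i j : Fin 2) :
    (Cᵀ * J * B * C) i j = bil (colv C i) (B *ᵥ colv C j) := by
  rw [Matrix.mul_assoc (Cᵀ * J), Matrix.mul_assoc, Matrix.mul_apply]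
  unfold bil dotProduct
  refine Finset.sum_congr rfl fun x _ => ?_
  rw [Matrix.transpose_apply]
  congr 1

/-- the determinant measuring the position of a plane with respect to an isotropic plane -/
def dlt (C : Matrix (Fin 7) (Fin 2) ℝ) (e w : V) : ℝ :=
  bil e (colv C 0) * bil w (colv C 1) - bil e (colv C 1) * bil w (colv C 0)

lemma det_path (C : Matrix (Fin 7) (Fin 2) ℝ) (e w : V) (t : ℝ) :
    (Cᵀ * J * path e w t * C).det = (Cᵀ * J * C).det + t ^ 2 * (dlt C e w) ^ 2 := by
  have h0 : Cᵀ * J * C = Cᵀ * J * (1 : M7) * C := by rw [Matrix.mul_one]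
  rw [h0, Matrix.det_fin_two, Matrix.det_fin_two]
  simp only [entry, path, Matrix.add_mulVec, Matrix.one_mulVec, Matrix.smul_mulVec, nil_mulVec,
    bil_add, bil_smul, bil_sub]
  rw [bil_comm (colv C 0) w, bil_comm (colv C 0) e, bil_comm (colv C 1) w,
    bil_comm (colv C 1) e, bil_comm (colv C 1) (colv C 0)]
  unfold dlt
  ring

lemma system_zero {C : Matrix (Fin 7) (Fin 2) ℝ} {e w : V} (hd : dlt C e w ≠ 0)
    (v : Fin 2 → ℝ) (h1 : bil e (C *ᵥ v) = 0) (h2 : bil w (C *ᵥ v) = 0) : v = 0 := by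
  rw [mulVec_two, bil_add, bil_smul, bil_smul] at h1 h2
  unfold dlt at hd
  have h3 : v 0 * (bil e (colv C 0) * bil w (colv C 1) - bil e (colv C 1) * bil w (colv C 0)) = 0 := by
    linear_combination bil w (colv C 1) * h1 - bil e (colv C 1) * h2
  have h4 : v 1 * (bil e (colv C 0) * bil w (colv C 1) - bil e (colv C 1) * bil w (colv C 0)) = 0 := by
    linear_combination bil e (colv C 0) * h2 - bil w (colv C 0) * h1
  have h5 := (mul_eq_zero.mp h3).resolve_right hd
  have h6 := (mul_eq_zero.mp h4).resolve_right hd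
  funext i
  fin_cases i
  · exact h5
  · exact h6

lemma path_inj {C : Matrix (Fin 7) (Fin 2) ℝ} {e w : V} (h : Iso e w) (hd : dlt C e w ≠ 0)
    {t : ℝ} (ht : t ≠ 0) (v : Fin 2 ⊕ Fin 2 → ℝ)
    (hv : Matrix.fromCols C (path e w t * C) *ᵥ v = 0) : v = 0 := by
  rw [Matrix.fromCols_mulVec] at hv
  set a : Fin 2 → ℝ := v ∘ Sum.inl with ha
  set b : Fin 2 → ℝ := v ∘ Sum.inr with hb
  have h1 : C *ᵥ (a + b) + t • (bil e (C *ᵥ b) • w - bil w (C *ᵥ b) • e) = 0 := by
    rw [← hv, ← Matrix.mulVec_mulVec, path, Matrix.add_mulVec, Matrix.one_mulVec,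
      Matrix.smul_mulVec, nil_mulVec, Matrix.mulVec_add]
    abel
  have h2 : bil e (C *ᵥ (a + b)) = 0 := by
    have h3 := congrArg (bil e) h1
    rw [bil_add, bil_smul, bil_sub, bil_smul, bil_smul, h.ew, h.ee] at h3
    have h4 : bil e 0 = 0 := by unfold bil; simp
    rw [h4] at h3
    simpa using h3
  have h3 : bil w (C *ᵥ (a + b)) = 0 := by
    have h3 := congrArg (bil w) h1
    rw [bil_add, bil_smul, bil_sub, bil_smul, bil_smul, h.ww, bil_comm w e, h.ew] at h3
    have h4 : bil w 0 = 0 := by unfold bil; simp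
    rw [h4] at h3
    simpa using h3
  have h4 := system_zero hd _ h2 h3
  rw [h4, Matrix.mulVec_zero, zero_add] at h1
  have h5 : bil e (C *ᵥ b) • w - bil w (C *ᵥ b) • e = 0 := (smul_eq_zero.mp h1).resolve_left ht
  have h6 : ∀ y : V, bil e (C *ᵥ b) * bil y w - bil w (C *ᵥ b) * bil y e = 0 := by
    intro y
    have h7 := congrArg (bil y) h5
    rw [bil_sub, bil_smul, bil_smul] at h7
    rw [h7]
    unfold bil; simp
  have h7 := h6 (colv C 0)
  have h8 := h6 (colv C 1)
  rw [bil_comm _ w, bil_comm _ e] at h7 h8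
  have h9 : bil e (C *ᵥ b) * dlt C e w = 0 := by
    unfold dlt
    linear_combination bil e (colv C 0) * h8 - bil e (colv C 1) * h7
  have h10 : bil w (C *ᵥ b) * dlt C e w = 0 := by
    unfold dlt
    linear_combination bil w (colv C 0) * h8 - bil w (colv C 1) * h7
  have hb0 := system_zero hd b ((mul_eq_zero.mp h9).resolve_right hd)
    ((mul_eq_zero.mp h10).resolve_right hd)
  have ha0 : a = 0 := by rw [hb0, add_zero] at h4; exact h4
  funext i
  rcases i with i | i
  · exact congrFun ha0 i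
  · exact congrFun hb0 i

end Pool.Agent.Cry7
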