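import Pool.Agent.Cry7.Select
import Pool.Agent.Cry7.Fix

/-! No element moves points in a two-dimensional space of directions only. -/

set_option autoImplicit false

namespace Pool.Agent.Cry7

open Matrix Filter Topology

/-- the commutator of `A` with the conjugate of `A` by `G` -/
def commF (A G : M7) : M7 := A * (G * A * adj G) * adj A * (G * adj A * adj G)

lemma PolyMat.commF (A : M7) : PolyMat fun G : M7 => commF A G := by
  unfold Pool.Agent.Cry7.commF
  exact (((PolyMat.const A).mul ((PolyMat.id.mul (PolyMat.const A)).mul PolyMat.adj)).mul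
    (PolyMat.const (Pool.Agent.Cry7.adj A))).mul
    ((PolyMat.id.mul (PolyMat.const (Pool.Agent.Cry7.adj A))).mul PolyMat.adj)

lemma adj_unique {A B : M7} (h : Aᵀ * J * A = J) (hB : B * A = 1) : B = adj A := by
  calc B = B * (A * adj A) := by rw [mul_adj h, mul_one]
    _ = adj A := by rw [← Matrix.mul_assoc, hB, Matrix.one_mul]

lemma conj_repr {r : ℕ} {A G : M7} {C : Matrix (Fin 7) (Fin r) ℝ} {T : Matrix (Fin r) (Fin r) ℝ}
    (hA : A = 1 + C * T * Cᵀ * J) (hG : Gᵀ * J * G = J) :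
    G * A * adj G = 1 + (G * C) * T * (G * C)ᵀ * J := by
  rw [hA, Matrix.mul_add, Matrix.mul_one, Matrix.add_mul, mul_adj hG]
  congr 1
  unfold adj
  rw [Matrix.transpose_mul]
  have h1 : G * (C * T * Cᵀ * J) * (J * Gᵀ * J) = G * C * T * Cᵀ * (J * J) * Gᵀ * J := by
    simp only [Matrix.mul_assoc]
  rw [h1, J_mul_J, Matrix.mul_one]
  simp only [Matrix.mul_assoc]

lemma commF_one {A : M7} (hA : Aᵀ * J * A = J) : commF A 1 = 1 := by
  have h1 : adj (1 : M7) = 1 := by
    unfold adj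
    rw [Matrix.transpose_one, Matrix.mul_one, J_mul_J]
  unfold commF
  rw [h1]
  simp only [Matrix.one_mul, Matrix.mul_one]
  rw [Matrix.mul_assoc A A, mul_adj hA, Matrix.mul_one, mul_adj hA]

lemma commF_eq_one {A G : M7} (hA : Aᵀ * J * A = J) (hG : Gᵀ * J * G = J)
    (h : commF A G = 1) : A * (G * A * adj G) = (G * A * adj G) * A := by
  set B := G * A * adj G with hB
  have h1 : (G * adj A * adj G) * B = 1 := by
    rw [hB]
    have h2 : G * adj A * adj G * (G * A * adj G) = G * (adj A * (adj G * G) * A) * adj G := by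
      simp only [Matrix.mul_assoc]
    rw [h2, adj_mul hG, Matrix.mul_one, adj_mul hA, Matrix.mul_one, mul_adj hG]
  have h3 : commF A G * (B * A) = A * B := by
    unfold commF
    rw [← hB]
    have h4 : A * B * adj A * (G * adj A * adj G) * (B * A) =
        A * B * adj A * ((G * adj A * adj G) * B) * A := by
      simp only [Matrix.mul_assoc]
    rw [h4, h1, Matrix.mul_one, Matrix.mul_assoc (A * B), adj_mul hA, Matrix.mul_one]
  rw [← h3, h, Matrix.one_mul]

lemma continuous_path (e w : V) : Continuous (path e w) := by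
  unfold path
  exact continuous_const.add (continuous_id.smul continuous_const)

lemma continuous_commF (A : M7) : Continuous (commF A) := by
  have hadj : Continuous (fun G : M7 => adj G) := by
    unfold adj
    exact (continuous_const.matrix_mul continuous_id.matrix_transpose).matrix_mul continuous_const
  unfold commF
  exact ((continuous_const.matrix_mul ((continuous_id.matrix_mul continuous_const).matrix_mul
    hadj)).matrix_mul continuous_const).matrix_mul
    ((continuous_id.matrix_mul continuous_const).matrix_mul hadj)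

lemma eventually_one (F : ℝ → M7) (hF : Continuous F) (h0 : F 0 = 1) (M : ℕ) (hM : 0 < M)
    (h : ∀ᶠ t in 𝓝[≠] (0 : ℝ), F t ^ M = 1) : ∀ᶠ t in 𝓝[≠] (0 : ℝ), F t = 1 := by
  have hs : Continuous fun t => (∑ i ∈ Finset.range M, F t ^ i).det :=
    Continuous.matrix_det (continuous_finsetSum _ fun i _ => hF.pow i)
  have hs0 : (∑ i ∈ Finset.range M, F 0 ^ i).det ≠ 0 := by
    rw [h0]
    simp only [one_pow, Finset.sum_const, Finset.card_range]
    rw [← Nat.cast_smul_eq_nsmul ℝ, Matrix.det_smul, Matrix.det_one, mul_one]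
    exact pow_ne_zero _ (Nat.cast_ne_zero.mpr hM.ne')
  have hev : ∀ᶠ t in 𝓝 (0 : ℝ), (∑ i ∈ Finset.range M, F t ^ i).det ≠ 0 :=
    hs.continuousAt.eventually_ne hs0
  filter_upwards [h, hev.filter_mono nhdsWithin_le_nhds] with t ht hd
  have h1 : (∑ i ∈ Finset.range M, F t ^ i) * (F t - 1) = 0 := by
    rw [geom_sum_mul, ht, sub_self]
  have hu : IsUnit (∑ i ∈ Finset.range M, F t ^ i).det := isUnit_iff_ne_zero.mpr hd
  have h2 := congrArg (fun Z => (∑ i ∈ Finset.range M, F t ^ i)⁻¹ * Z) h1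
  simp only [Matrix.mul_zero] at h2
  rw [← Matrix.mul_assoc, Matrix.nonsing_inv_mul _ hu, Matrix.one_mul] at h2
  exact sub_eq_zero.mp h2

theorem no_rank_two (Γ : Subgroup AffE)
    (hp : ∀ K L : Set V, IsCompact K → IsCompact L →
        {g : AffE | g ∈ Γ ∧ ((⇑g) '' K ∩ L).Nonempty}.Finite)
    (hc : ∃ K : Set V, IsCompact K ∧ ∀ x : V, ∃ g ∈ Γ, x ∈ (⇑g) '' K)
    (hl : ∀ g ∈ Γ, SO (lin g)) (hd : Dense {A : M7 | ∃ g ∈ Γ, lin g = A})
    (γ : AffE) (hγ : γ ∈ Γ) : (lin γ - 1).rank ≠ 2 := by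
  intro h2
  obtain ⟨M, hM, hfix⟩ := uniform_torsion Γ hp hc
  obtain ⟨C, T, hA1, hC, hT, -⟩ := orth_repr (lin γ) (hl γ hγ).2 2 h2
  set A := lin γ with hA
  have hAo : Aᵀ * J * A = J := (hl γ hγ).2
  have hinv : ∀ g ∈ Γ, lin g⁻¹ = adj (lin g) := fun g hg =>
    adj_unique (hl g hg).2 (lin_inv_mul g)
  have hstep : ∀ g ∈ Γ, (Cᵀ * J * (lin g * C)).det ≠ 0 →
      (∀ v : Fin 2 ⊕ Fin 2 → ℝ, Matrix.fromCols C (lin g * C) *ᵥ v = 0 → v = 0) →
      commF A (lin g) ^ M = 1 := by
    intro g hg hdet hinj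
    set δ : AffE := g * γ * g⁻¹ with hδ
    have hδΓ : δ ∈ Γ := Γ.mul_mem (Γ.mul_mem hg hγ) (Γ.inv_mem hg)
    have hlδ : lin δ = lin g * A * adj (lin g) := by
      rw [hδ, lin_conj, hinv g hg]
    have hlδ2 : lin δ = 1 + (lin g * C) * T * (lin g * C)ᵀ * J := by
      rw [hlδ]; exact conj_repr hA1 (hl g hg).2
    obtain ⟨z, hz⟩ := commute_point γ δ C (lin g * C) T hT hA1 hlδ2 hinj hdet
    have hcΓ : γ * δ * γ⁻¹ * δ⁻¹ ∈ Γ :=
      Γ.mul_mem (Γ.mul_mem (Γ.mul_mem hγ hδΓ) (Γ.inv_mem hγ)) (Γ.inv_mem hδΓ)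
    have h3 := hfix _ hcΓ ⟨δ (γ z), by
      have h4 : (γ * δ * γ⁻¹ * δ⁻¹) (δ (γ z)) = γ (δ (γ⁻¹ (δ⁻¹ (δ (γ z))))) := rfl
      have h5 : δ⁻¹ (δ (γ z)) = γ z := δ.symm_apply_apply _
      have h6 : γ⁻¹ (γ z) = z := γ.symm_apply_apply _
      rw [h4, h5, h6, hz]⟩
    have h4 := congrArg lin h3
    rw [lin_pow, lin_one, lin_mul, lin_mul, lin_mul, hinv γ hγ] at h4
    have h5 : lin δ⁻¹ = lin g * adj A * adj (lin g) := by
      have h6 : δ⁻¹ = g * γ⁻¹ * g⁻¹ := by rw [hδ]; group
      rw [h6, lin_conj, hinv g hg, hinv γ hγ]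
    rw [h5, hlδ] at h4
    exact h4
  have hpoly : ∀ i j : Fin 7, ∀ G : M7, SO G →
      (Cᵀ * J * (G * C)).det * (((Matrix.fromCols C (G * C))ᵀ * Matrix.fromCols C (G * C)).det *
        (commF A G ^ M - 1) i j) = 0 := by
    intro i j G hG
    have hX : PolyMat fun G : M7 => Matrix.fromCols C (G * C) :=
      (PolyMat.const C).fromCols (PolyMat.id.mul (PolyMat.const C))
    refine hd (fun G => (Cᵀ * J * (G * C)).det *
      (((Matrix.fromCols C (G * C))ᵀ * Matrix.fromCols C (G * C)).det *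
        (commF A G ^ M - 1) i j)) ?_ ?_ G hG
    · refine PolyFun.mul (PolyFun.det ?_) (PolyFun.mul (PolyFun.det ?_) ?_)
      · exact (PolyMat.const (Cᵀ * J)).mul (PolyMat.id.mul (PolyMat.const C))
      · exact hX.transpose.mul hX
      · exact (((PolyMat.commF A).pow M).sub (PolyMat.const 1)) i j
    · rintro _ ⟨g, hg, rfl⟩
      by_cases h1 : (Cᵀ * J * (lin g * C)).det = 0
      · simp only [h1, zero_mul]
      by_cases h2 : ((Matrix.fromCols C (lin g * C))ᵀ * Matrix.fromCols C (lin g * C)).det = 0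
      · simp only [h2, zero_mul, mul_zero]
      have h3 : commF A (lin g) ^ M = 1 := by
        refine hstep g hg h1 fun v hv => ?_
        by_contra hv0
        exact h2 (Matrix.exists_mulVec_eq_zero_iff.mp
          ⟨v, hv0, by rw [← Matrix.mulVec_mulVec, hv, Matrix.mulVec_zero]⟩)
      simp only [h3, sub_self, Matrix.zero_apply, mul_zero]
  obtain ⟨e, w, hiso, hdl⟩ := exists_iso C hC
  have hdet : ∀ t : ℝ, (Cᵀ * J * (path e w t * C)).det =
      (Cᵀ * J * C).det + t ^ 2 * (dlt C e w) ^ 2 := by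
    intro t
    rw [← Matrix.mul_assoc, det_path]
  have hev1 : ∀ᶠ t in 𝓝[≠] (0 : ℝ), (Cᵀ * J * (path e w t * C)).det ≠ 0 := by
    by_cases h0 : (Cᵀ * J * C).det = 0
    · filter_upwards [self_mem_nhdsWithin] with t ht
      rw [hdet, h0, zero_add]
      exact mul_ne_zero (pow_ne_zero _ ht) (pow_ne_zero _ hdl)
    · have hcont : Continuous fun t : ℝ => (Cᵀ * J * C).det + t ^ 2 * (dlt C e w) ^ 2 := by
        fun_prop
      have h1 := hcont.continuousAt.eventually_ne (x := (0 : ℝ)) (y := 0) (by simpa using h0)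
      filter_upwards [h1.filter_mono nhdsWithin_le_nhds] with t ht
      rw [hdet]; exact ht
  have hinj : ∀ t : ℝ, t ≠ 0 → ∀ v : Fin 2 ⊕ Fin 2 → ℝ,
      Matrix.fromCols C (path e w t * C) *ᵥ v = 0 → v = 0 :=
    fun t ht v hv => path_inj hiso hdl ht v hv
  have hev2 : ∀ᶠ t in 𝓝[≠] (0 : ℝ), commF A (path e w t) ^ M = 1 := by
    filter_upwards [hev1, self_mem_nhdsWithin] with t ht1 ht0
    have h3 := gram_det (Matrix.fromCols C (path e w t * C)) (hinj t ht0)
    ext i j
    have h4 := hpoly i j _ (path_SO hiso t)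
    have h5 := (mul_eq_zero.mp ((mul_eq_zero.mp h4).resolve_left ht1)).resolve_left h3
    rw [Matrix.sub_apply, sub_eq_zero] at h5
    exact h5
  have hp0 : path e w 0 = 1 := by unfold path; simp
  have hev3 := eventually_one (fun t => commF A (path e w t))
    ((continuous_commF A).comp (continuous_path e w)) (by simp only [hp0]; exact commF_one hAo)
    M hM hev2
  obtain ⟨t, ht3, ht1, ht0⟩ := (hev3.and (hev1.and self_mem_nhdsWithin)).exists
  have hG := (path_SO hiso t).2
  exact comm_contra (by norm_num) C (path e w t * C) T hT A _ hA1 (conj_repr hA1 hG)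
    (hinj t ht0) ht1 (commF_eq_one hAo hG ht3)

end Pool.Agent.Cry7
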