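import Pool.Agent.Cry7.Basic

/-! The displacement of an isometry of the form. -/

set_option autoImplicit false

namespace Pool.Agent.Cry7

open Matrix

lemma factor (P : M7) (r : ℕ) (h : P.rank = r) :
    ∃ (C : Matrix (Fin 7) (Fin r) ℝ) (R : Matrix (Fin r) (Fin 7) ℝ)
      (Q : Matrix (Fin 7) (Fin r) ℝ), P = C * R ∧ R * Q = 1 ∧
      ∀ v : Fin r → ℝ, C *ᵥ v = 0 → v = 0 := by
  classical
  have hfr : Module.finrank ℝ (LinearMap.range P.mulVecLin) = r := h
  let b : Module.Basis (Fin r) ℝ (LinearMap.range P.mulVecLin) :=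
    (Module.finBasis ℝ (LinearMap.range P.mulVecLin)).reindex (finCongr hfr)
  have hq : ∀ i : Fin r, ∃ x : V, P *ᵥ x = (b i : V) := by
    intro i
    obtain ⟨x, hx⟩ := (b i).2
    exact ⟨x, hx⟩
  choose q hq using hq
  let C : Matrix (Fin 7) (Fin r) ℝ := Matrix.of fun x i => (b i : V) x
  let R : Matrix (Fin r) (Fin 7) ℝ := Matrix.of fun i j =>
    b.repr ⟨P *ᵥ (Pi.single j 1), LinearMap.mem_range_self P.mulVecLin (Pi.single j 1)⟩ i
  let Q : Matrix (Fin 7) (Fin r) ℝ := Matrix.of fun x i => q i x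
  have hCv : ∀ v : Fin r → ℝ, C *ᵥ v = ∑ i, v i • (b i : V) := by
    intro v
    ext x
    simp only [Matrix.mulVec, dotProduct, C, Matrix.of_apply, Finset.sum_apply, Pi.smul_apply,
      smul_eq_mul]
    exact Finset.sum_congr rfl fun i _ => mul_comm _ _
  have hRv : ∀ x : V, R *ᵥ x = b.repr ⟨P *ᵥ x, LinearMap.mem_range_self P.mulVecLin x⟩ := by
    intro x
    have hlin : ∀ y : V, (⟨P *ᵥ y, LinearMap.mem_range_self P.mulVecLin y⟩ :
        LinearMap.range P.mulVecLin) = P.mulVecLin.rangeRestrict y := fun y => rfl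
    have hx : x = ∑ j, x j • (Pi.single j (1 : ℝ) : V) := by
      ext k
      simp [Finset.sum_apply, Pi.single_apply]
    funext i
    have h1 : (R *ᵥ x) i = ∑ j, x j * b.repr (P.mulVecLin.rangeRestrict (Pi.single j 1)) i := by
      simp only [Matrix.mulVec, dotProduct, R, Matrix.of_apply, hlin]
      exact Finset.sum_congr rfl fun j _ => mul_comm _ _
    rw [h1, hlin]
    conv_rhs => rw [hx]
    rw [map_sum, map_sum, Finsupp.finsetSum_apply]
    refine Finset.sum_congr rfl fun j _ => ?_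
    rw [map_smul, map_smul, Finsupp.smul_apply, smul_eq_mul]
  refine ⟨C, R, Q, ?_, ?_, ?_⟩
  · apply Matrix.ext_of_mulVec_single
    intro j
    rw [← Matrix.mulVec_mulVec, hRv, hCv]
    have h2 := b.sum_repr ⟨P *ᵥ (Pi.single j 1), LinearMap.mem_range_self P.mulVecLin (Pi.single j 1)⟩
    have h3 := congrArg (Subtype.val) h2
    rw [Submodule.coe_sum] at h3
    simpa using h3.symm
  · apply Matrix.ext_of_mulVec_single
    intro i
    rw [← Matrix.mulVec_mulVec, Matrix.one_mulVec]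
    have h2 : Q *ᵥ (Pi.single i 1) = q i := by
      ext x
      simp [Q, Matrix.mulVec_single]
    rw [h2, hRv]
    have h3 : (⟨P *ᵥ q i, LinearMap.mem_range_self P.mulVecLin (q i)⟩ :
        LinearMap.range P.mulVecLin) = b i := Subtype.ext (hq i)
    rw [h3, b.repr_self]
    ext k
    rw [Finsupp.single_apply, Pi.single_apply]
    simp only [eq_comm]
  · intro v hv
    rw [hCv] at hv
    have h4 : ∑ i, v i • b i = 0 := by
      apply Subtype.ext
      rw [Submodule.coe_sum]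
      simpa using hv
    have h5 := Fintype.linearIndependent_iff.mp b.linearIndependent v h4
    exact funext h5

lemma gram_det {n : Type} [Fintype n] [DecidableEq n] (C : Matrix (Fin 7) n ℝ)
    (h : ∀ v : n → ℝ, C *ᵥ v = 0 → v = 0) :
    (Cᵀ * C).det ≠ 0 := by
  intro h0
  obtain ⟨v, hv, hv0⟩ := Matrix.exists_mulVec_eq_zero_iff.mpr h0
  apply hv
  apply h
  have h1 : (C *ᵥ v) ⬝ᵥ (C *ᵥ v) = 0 := by
    have h2 : v ⬝ᵥ ((Cᵀ * C) *ᵥ v) = 0 := by rw [hv0]; simp
    rw [← Matrix.mulVec_mulVec, Matrix.dotProduct_mulVec, Matrix.vecMul_transpose] at h2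
    exact h2
  exact dotProduct_self_eq_zero.mp h1

/-- the displacement of an isometry -/
lemma orth_repr (A : M7) (hA : Aᵀ * J * A = J) (r : ℕ) (h : (A - 1).rank = r) :
    ∃ (C : Matrix (Fin 7) (Fin r) ℝ) (T : Matrix (Fin r) (Fin r) ℝ),
      A = 1 + C * T * Cᵀ * J ∧ (∀ v : Fin r → ℝ, C *ᵥ v = 0 → v = 0) ∧ T.det ≠ 0 ∧
      A.det = (-1) ^ r := by
  obtain ⟨C, R, Q, hP, hRQ, hC⟩ := factor (A - 1) r h
  have hA1 : A = 1 + C * R := by rw [← hP]; abel
  have hQR : Qᵀ * Rᵀ = 1 := by rw [← Matrix.transpose_mul, hRQ, Matrix.transpose_one]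
  have e0 : Rᵀ * (Cᵀ * J) + J * (C * R) + Rᵀ * (Cᵀ * J * C * R) = 0 := by
    have h1 := hA
    rw [hA1, Matrix.transpose_add, Matrix.transpose_one, Matrix.transpose_mul] at h1
    have h2 : (1 + Rᵀ * Cᵀ) * J * (1 + C * R) =
        J + (Rᵀ * (Cᵀ * J) + J * (C * R) + Rᵀ * (Cᵀ * J * C * R)) := by
      simp only [Matrix.add_mul, Matrix.mul_add, Matrix.one_mul, Matrix.mul_one, Matrix.mul_assoc]
      abel
    rw [h2] at h1
    simpa using h1
  set Ps : Matrix (Fin r) (Fin r) ℝ := Cᵀ * J * Q with hPs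
  have e1 : Cᵀ * J + Qᵀ * (J * (C * R)) + Cᵀ * J * C * R = 0 := by
    have h1 := congrArg (fun Z => Qᵀ * Z) e0
    simp only [Matrix.mul_add, Matrix.mul_zero] at h1
    rw [← Matrix.mul_assoc Qᵀ Rᵀ, ← Matrix.mul_assoc Qᵀ Rᵀ, hQR, Matrix.one_mul,
      Matrix.one_mul] at h1
    exact h1
  have e2 : Ps + Qᵀ * J * C + Cᵀ * J * C = 0 := by
    have h1 := congrArg (fun Z => Z * Q) e1
    simp only [Matrix.add_mul, Matrix.zero_mul] at h1
    rw [Matrix.mul_assoc (Cᵀ * J * C) R Q, hRQ, Matrix.mul_one] at h1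
    have h2 : Qᵀ * (J * (C * R)) * Q = Qᵀ * J * C := by
      rw [Matrix.mul_assoc, Matrix.mul_assoc J, Matrix.mul_assoc C, hRQ, Matrix.mul_one,
        Matrix.mul_assoc]
    rw [h2] at h1
    exact h1
  have e3 : Cᵀ * J = Ps * R := by
    have h1 : Ps = -(Qᵀ * J * C) - Cᵀ * J * C := by
      rw [eq_sub_iff_add_eq, eq_neg_iff_add_eq_zero, add_right_comm]
      exact e2
    rw [h1, Matrix.sub_mul, Matrix.neg_mul, eq_sub_iff_add_eq, eq_neg_iff_add_eq_zero,
      add_right_comm]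
    rw [← e1]
    simp only [Matrix.mul_assoc]
  have hg : IsUnit (Cᵀ * C).det := isUnit_iff_ne_zero.mpr (gram_det C hC)
  set T : Matrix (Fin r) (Fin r) ℝ := R * J * C * (Cᵀ * C)⁻¹ with hT
  have hPT : Ps * T = 1 := by
    rw [hT]
    have h1 : Ps * (R * J * C * (Cᵀ * C)⁻¹) = (Ps * R) * J * C * (Cᵀ * C)⁻¹ := by
      simp only [Matrix.mul_assoc]
    rw [h1, ← e3, Matrix.mul_assoc Cᵀ J J, J_mul_J, Matrix.mul_one, Matrix.mul_nonsing_inv _ hg]
  have hTP : T * Ps = 1 := mul_eq_one_comm.mp hPT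
  have hR : R = T * Cᵀ * J := by
    rw [Matrix.mul_assoc, e3, ← Matrix.mul_assoc, hTP, Matrix.one_mul]
  have hdT : T.det ≠ 0 := by
    intro h0
    have h1 := congrArg Matrix.det hPT
    rw [Matrix.det_mul, h0, mul_zero, Matrix.det_one] at h1
    exact zero_ne_one h1
  have hdP : Ps.det ≠ 0 := by
    intro h0
    have h1 := congrArg Matrix.det hPT
    rw [Matrix.det_mul, h0, zero_mul, Matrix.det_one] at h1
    exact zero_ne_one h1
  refine ⟨C, T, ?_, hC, hdT, ?_⟩
  · rw [Matrix.mul_assoc C T, Matrix.mul_assoc C, ← hR]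
    exact hA1
  · have h1 : A.det = (1 + R * C).det := by
      rw [hA1, Matrix.det_one_add_mul_comm]
    have h2 : Psᵀ = -(Ps * (1 + R * C)) := by
      have h3 : Psᵀ = Qᵀ * J * C := by
        rw [hPs, Matrix.transpose_mul, Matrix.transpose_mul, J_transpose,
          Matrix.transpose_transpose, Matrix.mul_assoc]
      rw [h3, Matrix.mul_add, Matrix.mul_one, ← Matrix.mul_assoc, ← e3, eq_neg_iff_add_eq_zero]
      rw [← e2]
      abel
    have h3 := congrArg Matrix.det h2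
    rw [Matrix.det_transpose, Matrix.det_neg, Matrix.det_mul, Fintype.card_fin] at h3
    rw [h1]
    have h4 : Ps.det * ((-1) ^ r * (1 + R * C).det) = Ps.det * 1 := by
      rw [mul_one]; linear_combination -h3
    have h5 := mul_left_cancel₀ hdP h4
    have h6 : ((-1 : ℝ) ^ r) * ((-1) ^ r) = 1 := by
      rw [← mul_pow]; norm_num
    linear_combination ((-1 : ℝ) ^ r) * h5 - (1 + R * C).det * h6

end Pool.Agent.Cry7
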