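import Pool.Agent.Cry7.Path

/-! Every plane is in general position with respect to some isotropic plane. -/

set_option autoImplicit false

namespace Pool.Agent.Cry7

open Matrix

/-- the vector with entries `1` at `i` and `a` at `j` -/
def ev (i j : Fin 7) (a : ℝ) : V := Pi.single i 1 + a • Pi.single j 1

def sg (i : Fin 7) : ℝ := if (i : ℕ) < 4 then 1 else -1

lemma bil_single (x : V) (i : Fin 7) : bil x (Pi.single i 1) = x i * sg i := by
  unfold bil J sg
  rw [Matrix.mulVec_single_one]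
  have h : (Matrix.diagonal (fun i : Fin 7 => if (i : ℕ) < 4 then (1 : ℝ) else -1)).col i =
      Pi.single i (if (i : ℕ) < 4 then (1 : ℝ) else -1) := by
    ext k
    rw [Matrix.col_apply, Matrix.diagonal_apply, Pi.single_apply]
    split_ifs with h1 <;> simp_all
  rw [h, dotProduct_single]

lemma bil_ev (x : V) (i j : Fin 7) (a : ℝ) :
    bil x (ev i j a) = x i * sg i + a * (x j * sg j) := by
  unfold ev
  rw [bil_add, bil_smul, bil_single, bil_single]

lemma ev_apply (i j k : Fin 7) (a : ℝ) :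
    ev i j a k = (if k = i then 1 else 0) + a * (if k = j then 1 else 0) := by
  unfold ev
  simp [Pi.single_apply]

lemma iso_ev {i j k l : Fin 7} (hi : (i : ℕ) < 4) (hk : (k : ℕ) < 4) (hj : ¬ (j : ℕ) < 4)
    (hl : ¬ (l : ℕ) < 4) (hik : i ≠ k) (hjl : j ≠ l) {a b : ℝ} (ha : a * a = 1)
    (hb : b * b = 1) : Iso (ev i j a) (ev k l b) := by
  have hij : i ≠ j := by rintro rfl; exact hj hi
  have hil : i ≠ l := by rintro rfl; exact hl hi
  have hkj : k ≠ j := by rintro rfl; exact hj hk
  have hkl : k ≠ l := by rintro rfl; exact hl hk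
  refine ⟨?_, ?_, ?_⟩
  · rw [bil_ev, ev_apply, ev_apply]
    simp [sg, hi, hj, hij, hij.symm]
    linarith
  · rw [bil_ev, ev_apply, ev_apply]
    simp [sg, hk, hl, hkl, hkl.symm]
    linarith
  · rw [bil_ev, ev_apply, ev_apply]
    simp [sg, hik.symm, hkj, hil.symm, hjl.symm]

lemma exists_iso (C : Matrix (Fin 7) (Fin 2) ℝ) (hC : ∀ v : Fin 2 → ℝ, C *ᵥ v = 0 → v = 0) :
    ∃ e w : V, Iso e w ∧ dlt C e w ≠ 0 := by
  by_contra hno
  push Not at hno
  set x := colv C 0 with hx
  set y := colv C 1 with hy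
  have key : ∀ i k j l : Fin 7, (i : ℕ) < 4 → (k : ℕ) < 4 → ¬ (j : ℕ) < 4 → ¬ (l : ℕ) < 4 →
      i ≠ k → j ≠ l → ∀ a b : ℝ, a * a = 1 → b * b = 1 →
      (x i - a * x j) * (y k - b * y l) - (y i - a * y j) * (x k - b * x l) = 0 := by
    intro i k j l hi hk hj hl hik hjl a b ha hb
    have h := hno _ _ (iso_ev hi hk hj hl hik hjl ha hb)
    unfold dlt at h
    rw [bil_comm _ (colv C 1), bil_comm _ (colv C 0), bil_comm _ (colv C 1),
      bil_comm _ (colv C 0), bil_ev, bil_ev, bil_ev, bil_ev] at h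
    simp only [sg, if_pos hi, if_pos hk, if_neg hj, if_neg hl] at h
    rw [← hx, ← hy] at h
    linear_combination h
  have four : ∀ i k j l : Fin 7, (i : ℕ) < 4 → (k : ℕ) < 4 → ¬ (j : ℕ) < 4 → ¬ (l : ℕ) < 4 →
      i ≠ k → j ≠ l → x i * y k - y i * x k = 0 ∧ x i * y l - y i * x l = 0 ∧
        x j * y k - y j * x k = 0 ∧ x j * y l - y j * x l = 0 := by
    intro i k j l hi hk hj hl hik hjl
    have h1 := key i k j l hi hk hj hl hik hjl 1 1 (by norm_num) (by norm_num)
    have h2 := key i k j l hi hk hj hl hik hjl 1 (-1) (by norm_num) (by norm_num)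
    have h3 := key i k j l hi hk hj hl hik hjl (-1) 1 (by norm_num) (by norm_num)
    have h4 := key i k j l hi hk hj hl hik hjl (-1) (-1) (by norm_num) (by norm_num)
    refine ⟨?_, ?_, ?_, ?_⟩ <;> linarith
  have all : ∀ a b : Fin 7, x a * y b - y a * x b = 0 := by
    intro a b
    by_cases hab : a = b
    · subst hab; ring
    have low : ∀ a : Fin 7, ∃ k : Fin 7, (k : ℕ) < 4 ∧ a ≠ k := by decide
    have high : ∀ a : Fin 7, ∃ k : Fin 7, ¬ (k : ℕ) < 4 ∧ a ≠ k := by decide
    by_cases ha : (a : ℕ) < 4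
    · by_cases hb : (b : ℕ) < 4
      · exact (four a b 4 5 ha hb (by decide) (by decide) hab (by decide)).1
      · obtain ⟨k, hk, hak⟩ := low a
        obtain ⟨j, hj, hbj⟩ := high b
        exact (four a k j b ha hk hj hb hak hbj.symm).2.1
    · by_cases hb : (b : ℕ) < 4
      · obtain ⟨k, hk, hbk⟩ := low b
        obtain ⟨l, hl, hal⟩ := high a
        exact (four k b a l hk hb ha hl hbk.symm hal).2.2.1
      · exact (four 0 1 a b (by decide) (by decide) ha hb (by decide) hab).2.2.2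
  have hx0 : x ≠ 0 := by
    intro h0
    have h1 : C *ᵥ (Pi.single 0 1 : Fin 2 → ℝ) = 0 := by
      rw [mulVec_two, ← hx, h0]
      simp
    have h2 := congrFun (hC _ h1) 0
    simp at h2
  obtain ⟨a, ha⟩ := Function.ne_iff.mp hx0
  simp only [Pi.zero_apply] at ha
  have h1 : C *ᵥ ![y a, - x a] = 0 := by
    rw [mulVec_two, ← hx, ← hy]
    ext b
    have h2 := all a b
    simp only [Matrix.cons_val_zero, Matrix.cons_val_one, Pi.add_apply, Pi.smul_apply,
      smul_eq_mul, Pi.zero_apply]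
    linear_combination -h2
  have h2 := congrFun (hC _ h1) 1
  simp at h2
  exact ha h2

end Pool.Agent.Cry7
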