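import Pool.Agent.Cry7.Select

/-! There are no translations. -/

set_option autoImplicit false

namespace Pool.Agent.Cry7

open Matrix

lemma two_vec (x y : V) (h : ∀ c d : ℝ, c • x + d • y = 0 → c = 0 ∧ d = 0) :
    ∃ e w : V, Iso e w ∧ bil e x * bil w y - bil e y * bil w x ≠ 0 := by
  let C : Matrix (Fin 7) (Fin 2) ℝ := Matrix.of fun i j => ![x, y] j i
  have h0 : colv C 0 = x := by ext i; simp [colv, C]
  have h1 : colv C 1 = y := by ext i; simp [colv, C]
  have hC : ∀ v : Fin 2 → ℝ, C *ᵥ v = 0 → v = 0 := by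
    intro v hv
    rw [mulVec_two, h0, h1] at hv
    obtain ⟨h2, h3⟩ := h _ _ hv
    funext i
    fin_cases i
    · exact h2
    · exact h3
  obtain ⟨e, w, hi, hd⟩ := exists_iso C hC
  refine ⟨e, w, hi, ?_⟩
  unfold dlt at hd
  rw [h0, h1] at hd
  exact hd

lemma exists_indep (a : V) (ha : a ≠ 0) :
    ∃ b : V, ∀ c d : ℝ, c • a + d • b = 0 → c = 0 ∧ d = 0 := by
  obtain ⟨i, hi⟩ := Function.ne_iff.mp ha
  simp only [Pi.zero_apply] at hi
  have hj : ∃ j : Fin 7, j ≠ i := by
    by_cases h : i = 0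
    · exact ⟨1, by rw [h]; decide⟩
    · exact ⟨0, fun h1 => h h1.symm⟩
  obtain ⟨j, hj⟩ := hj
  refine ⟨Pi.single j 1, fun c d h => ?_⟩
  have h1 := congrFun h i
  simp [hj.symm] at h1
  have hc : c = 0 := h1.resolve_right hi
  have h2 := congrFun h j
  simp [hc] at h2
  exact ⟨hc, h2⟩

lemma exists_out (a : V) (ha : a ≠ 0) :
    ∃ e w : V, Iso e w ∧ ∀ c : ℝ, nil e w *ᵥ a ≠ c • a := by
  obtain ⟨b, hb⟩ := exists_indep a ha
  obtain ⟨e, w, hi, hd⟩ := two_vec a b hb
  refine ⟨e, w, hi, fun c hc => ?_⟩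
  rw [nil_mulVec] at hc
  have h1 := congrArg (bil e) hc
  have h2 := congrArg (bil w) hc
  have h3 := congrArg (bil b) hc
  rw [bil_sub, bil_smul, bil_smul, bil_smul, hi.ew, hi.ee] at h1
  rw [bil_sub, bil_smul, bil_smul, bil_smul, hi.ww, bil_comm w e, hi.ew] at h2
  rw [bil_sub, bil_smul, bil_smul, bil_smul, bil_comm b w, bil_comm b e, bil_comm b a] at h3
  by_cases h0 : c = 0
  · rw [h0, zero_mul] at h3
    apply hd
    linear_combination h3
  · have h4 : bil e a = 0 := by
      rcases mul_eq_zero.mp (show c * bil e a = 0 by linarith) with h | h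
      · exact absurd h h0
      · exact h
    have h5 : bil w a = 0 := by
      rcases mul_eq_zero.mp (show c * bil w a = 0 by linarith) with h | h
      · exact absurd h h0
      · exact h
    apply hd
    rw [h4, h5]; ring

lemma path_mulVec (e w x : V) (t : ℝ) :
    path e w t *ᵥ x = x + t • (nil e w *ᵥ x) := by
  unfold path
  rw [Matrix.add_mulVec, Matrix.one_mulVec, Matrix.smul_mulVec]

lemma SO_mul {A B : M7} (hA : SO A) (hB : SO B) : SO (A * B) := by
  refine ⟨by rw [Matrix.det_mul, hA.1, hB.1, one_mul], ?_⟩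
  rw [Matrix.transpose_mul]
  calc Bᵀ * Aᵀ * J * (A * B) = Bᵀ * (Aᵀ * J * A) * B := by simp only [Matrix.mul_assoc]
    _ = J := by rw [hA.2, hB.2]

lemma SO_one : SO 1 := by
  refine ⟨Matrix.det_one, ?_⟩
  rw [Matrix.transpose_one, Matrix.one_mul, Matrix.mul_one]

lemma orbit_ne (a u : V) (ha : a ≠ 0) (hu : u ≠ 0) : ∃ G : M7, SO G ∧ bil u (G *ᵥ a) ≠ 0 := by
  by_contra hno
  push Not at hno
  have hind : ∃ G : M7, SO G ∧ ∀ c d : ℝ, c • u + d • (G *ᵥ a) = 0 → c = 0 ∧ d = 0 := by
    by_cases h : ∃ c d : ℝ, c • u + d • a = 0 ∧ ¬ (c = 0 ∧ d = 0)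
    · obtain ⟨c, d, h1, h2⟩ := h
      obtain ⟨e, w, hi, hout⟩ := exists_out a ha
      refine ⟨path e w 1, path_SO hi 1, fun c' d' h3 => ?_⟩
      rw [path_mulVec, one_smul, smul_add] at h3
      have hc : c ≠ 0 := by
        intro hc
        rw [hc, zero_smul, zero_add] at h1
        rcases smul_eq_zero.mp h1 with h | h
        · exact h2 ⟨hc, h⟩
        · exact ha h
      have hu' : u = (-(d / c)) • a := by
        have h4 : c • u = -(d • a) := eq_neg_of_add_eq_zero_left h1
        have h5 : c⁻¹ • (c • u) = c⁻¹ • (-(d • a)) := by rw [h4]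
        rw [smul_smul, inv_mul_cancel₀ hc, one_smul, smul_neg, smul_smul] at h5
        rw [h5, neg_smul]
        congr 2
        field_simp
      by_cases hd' : d' = 0
      · refine ⟨?_, hd'⟩
        rw [hd', zero_smul, zero_smul, add_zero, add_zero] at h3
        exact (smul_eq_zero.mp h3).resolve_right hu
      · exfalso
        rw [hu'] at h3
        apply hout (-(c' * (-(d / c)) + d') / d')
        have h6 : d' • (nil e w *ᵥ a) = (-(c' * (-(d / c)) + d')) • a := by
          rw [neg_smul, add_smul, ← smul_smul]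
          rw [← add_assoc] at h3
          exact eq_neg_of_add_eq_zero_right h3
        have h7 : d'⁻¹ • (d' • (nil e w *ᵥ a)) = d'⁻¹ • ((-(c' * (-(d / c)) + d')) • a) := by
          rw [h6]
        rw [smul_smul, inv_mul_cancel₀ hd', one_smul, smul_smul] at h7
        rw [h7]
        congr 1
        field_simp
    · refine ⟨1, SO_one, fun c d h1 => ?_⟩
      rw [Matrix.one_mulVec] at h1
      by_contra h2
      exact h ⟨c, d, h1, h2⟩
  obtain ⟨G, hG, hGi⟩ := hind
  obtain ⟨e, w, hi, hd⟩ := two_vec u (G *ᵥ a) hGi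
  have h1 := hno _ (SO_mul (path_SO hi 1) hG)
  rw [← Matrix.mulVec_mulVec, path_mulVec, one_smul, bil_add, hno G hG, zero_add, nil_mulVec,
    bil_sub, bil_smul, bil_smul, bil_comm u w, bil_comm u e] at h1
  apply hd
  linear_combination -h1

end Pool.Agent.Cry7
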